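import Mathlib
import Pool.Agent.W825.Sat.Final

set_option autoImplicit false

/-!
# The inverse correlation length of the killed random walk need not be real-analytic beyond
saturation

Example: `d = 2`, the `ℓ¹` norm, `ψ(y) = κ (1+|y₁|)^{-3} (1+|y₂|)^{-3}`, `s = (4/5, 3/5)`.
-/

namespace Pool.Agent.Results.MP_07406a_pr.KRWKink

open Filter Topology Pool.Agent.W825.Sat

theorem result : ∃ (N : (Fin 2 → ℝ) → ℝ) (ψ : Site 2 → ℝ) (s : Fin 2 → ℝ),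
    LatticeNorm N ∧ Prefactor N ψ ∧ HasSum (fun x => J N ψ 0 x) 1 ∧ ∑ i, s i ^ 2 = 1 ∧
    (∀ lam : ℝ, 0 < lam → lam < lamC N ψ →
      Tendsto (rate N ψ s lam) atTop (𝓝 (nu N ψ s lam))) ∧
    ∃ lam : ℝ, lamSat N ψ s < lam ∧ lam < lamExp N ψ ∧ ¬ AnalyticAt ℝ (nu N ψ s) lam := by
  obtain ⟨N, ψ, s, h1, h2, h3, h4, -, -, h5, h6⟩ := main
  exact ⟨N, ψ, s, h1, h2, h3, h4, h5, h6⟩

end Pool.Agent.Results.MP_07406a_pr.KRWKink
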